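import Pool.Agent.Q44.JQ.X.Pkg
import Pool.Agent.Q44.JQ.StmH
import Pool.Agent.Y667.SX.Main

/-!
# The exact law for several elliptic curves, explicit form
-/

set_option autoImplicit false
set_option linter.unusedSectionVars false

open scoped Classical Topology

namespace Q44.JQ.X

open Finset Module Filter
open Q44.JQ Q44.JQ.W Q44.JQ.M
open Pool.Agent.TH344.JG (LocJ SelJ PR df)
open Pool.Agent.Y723.PT (tw)
open Pool.Agent.W307.SE (SelR)
open Pool.Agent.W307.RT (Sh)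
open Pool.Agent.TH841.SH.D (Sha)
open Pool.Agent.Y667.SX (Sel2H)

/-! ### Limits for all sets of vectors -/

section lim

variable {J : Type} [Fintype J]

theorem lim_of {ℓ : (J → ℕ) → ℝ} (h0 : ∀ r, 0 ≤ ℓ r) (hs : HasSum ℓ 1) (dd : J → ℤ → ℕ) (bs : J → ℕ)
    (C : ℤ → Prop) {c : ℝ} (hc : 0 < c)
    (h3 : Tendsto (fun X : ℕ => (((Icc (-(X : ℤ)) X).filter fun D => C D).card : ℝ) / X) atTop (𝓝 c))
    (h4 : ∀ (r : J → ℕ) (Q : ℤ → Prop), (∀ D, Q D ↔ ∀ j, dd j D = bs j + r j) →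
      Tendsto (fun X : ℕ => (((Icc (-(X : ℤ)) X).filter fun D => C D ∧ Q D).card : ℝ) / X) atTop
        (𝓝 (ℓ r * c)))
    (𝒜 : Set (J → ℕ)) (G : ℤ → Prop)
    (hG : ∀ D, C D → (G D ↔ ∃ r ∈ 𝒜, ∀ j, dd j D = bs j + r j)) :
    Tendsto (fun X : ℕ => (((Icc (-(X : ℤ)) X).filter fun D => C D ∧ G D).card : ℝ) /
      (((Icc (-(X : ℤ)) X).filter fun D => C D).card : ℝ)) atTop
      (𝓝 (∑' e : J → ℕ, if e ∈ 𝒜 then ℓ e else 0)) := by
  obtain ⟨ℬ, hℬ⟩ : ∃ ℬ : Set (J → ℕ), ∀ e, e ∈ ℬ ↔ e ∉ 𝒜 := ⟨𝒜ᶜ, fun _ => Iff.rfl⟩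
  obtain ⟨G', hG'⟩ : ∃ G' : ℤ → Prop, ∀ D, G' D ↔ ∃ r ∈ ℬ, ∀ j, dd j D = bs j + r j :=
    ⟨_, fun _ => Iff.rfl⟩
  have hpos : ∀ᶠ X : ℕ in atTop, (0 : ℝ) < (((Icc (-(X : ℤ)) X).filter fun D => C D).card : ℝ) := by
    filter_upwards [h3.eventually_const_lt hc, eventually_gt_atTop 0] with X hX hX0
    have hX0' : (0 : ℝ) < X := by exact_mod_cast hX0
    exact (div_pos_iff_of_pos_right hX0').1 hX
  have hsum : (∑' e : J → ℕ, if e ∈ 𝒜 then ℓ e else 0) + (∑' e : J → ℕ, if e ∈ ℬ then ℓ e else 0) =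
      1 := by
    have s1 : ∀ 𝒜 : Set (J → ℕ), Summable (fun e : J → ℕ => if e ∈ 𝒜 then ℓ e else 0) := by
      intro 𝒜
      refine Summable.of_nonneg_of_le (fun e => ?_) (fun e => ?_) hs.summable
      · split_ifs
        · exact h0 e
        · exact le_rfl
      · split_ifs
        · exact le_rfl
        · exact h0 e
    rw [← (s1 𝒜).tsum_add (s1 ℬ), ← hs.tsum_eq]
    refine tsum_congr fun e => ?_
    by_cases he : e ∈ 𝒜
    · rw [if_pos he, if_neg (fun h => (hℬ e).1 h he), add_zero]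
    · rw [if_neg he, if_pos ((hℬ e).2 he), zero_add]
  have hdis : ∀ X : ℕ, (((Icc (-(X : ℤ)) X).filter fun D => C D ∧ G D).card : ℝ) +
      (((Icc (-(X : ℤ)) X).filter fun D => C D ∧ G' D).card : ℝ) ≤
      (((Icc (-(X : ℤ)) X).filter fun D => C D).card : ℝ) := by
    intro X
    rw [← Nat.cast_add, ← Finset.card_union_of_disjoint]
    · refine Nat.cast_le.2 (card_le_card fun D hD => ?_)
      rcases mem_union.1 hD with hD | hD
      · exact mem_filter.2 ⟨(mem_filter.1 hD).1, (mem_filter.1 hD).2.1⟩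
      · exact mem_filter.2 ⟨(mem_filter.1 hD).1, (mem_filter.1 hD).2.1⟩
    · refine Finset.disjoint_left.2 fun D hD hD' => ?_
      obtain ⟨r, hr, h5⟩ := (hG D (mem_filter.1 hD).2.1).1 (mem_filter.1 hD).2.2
      obtain ⟨r', hr', h6⟩ := (hG' D).1 (mem_filter.1 hD').2.2
      apply (hℬ r').1 hr'
      have : r' = r := by
        funext j
        have a1 := h5 j
        rw [h6 j] at a1
        omega
      rw [this]
      exact hr
  have hlow := low_of h0 hs.summable dd bs C hc h3 h4 𝒜 G 0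
    (fun D hC _ h => (hG D hC).2 h)
  have hlow' := low_of h0 hs.summable dd bs C hc h3 h4 ℬ G' 0 (fun D _ _ h => (hG' D).2 h)
  rw [Metric.tendsto_nhds]
  intro ε hε
  filter_upwards [hlow (ε / 2) (half_pos hε), hlow' (ε / 2) (half_pos hε), hpos] with X h5 h6 h7
  have h8 := hdis X
  set N := (((Icc (-(X : ℤ)) X).filter fun D => C D).card : ℝ)
  set A := (((Icc (-(X : ℤ)) X).filter fun D => C D ∧ G D).card : ℝ)
  set A' := (((Icc (-(X : ℤ)) X).filter fun D => C D ∧ G' D).card : ℝ)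
  set P := ∑' e : J → ℕ, if e ∈ 𝒜 then ℓ e else 0
  set P' := ∑' e : J → ℕ, if e ∈ ℬ then ℓ e else 0
  rw [Real.dist_eq, abs_lt]
  have h9 : P' = 1 - P := by linarith
  rw [h9] at h6
  constructor
  · have : (P - ε) * N < A := by nlinarith
    have h10 : P - ε < A / N := (lt_div_iff₀ h7).2 this
    linarith
  · have : A < (P + ε) * N := by nlinarith
    have h10 : A / N < P + ε := (div_lt_iff₀ h7).2 this
    linarith

end lim

/-! ### Curves -/

/-- the curve `y ^ 2 = (x - a 0) (x - a 1) (x - a 2)`, `a 0 + a 1 + a 2 = 0` -/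
def cA (a : Fin 3 → ℤ) : ℤ := a 0 * a 1 + a 0 * a 2 + a 1 * a 2

/-- the constant coefficient -/
def cB (a : Fin 3 → ℤ) : ℤ := -(a 0 * a 1 * a 2)

theorem poly_eq {a : Fin 3 → ℤ} (h : a 0 + a 1 + a 2 = 0) (x : ℤ) :
    x ^ 3 + cA a * x + cB a = (x - a 0) * (x - a 1) * (x - a 2) := by
  have h2 : a 2 = -a 0 - a 1 := by linarith
  unfold cA cB
  rw [h2]
  ring

theorem disc_ne {a : Fin 3 → ℤ} (h : a 0 + a 1 + a 2 = 0) (hi : Function.Injective a) :
    4 * cA a ^ 3 + 27 * cB a ^ 2 ≠ 0 := by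
  have h2 : a 2 = -a 0 - a 1 := by linarith
  have e : 4 * cA a ^ 3 + 27 * cB a ^ 2 = -((a 0 - a 1) * (a 0 - a 2) * (a 1 - a 2)) ^ 2 := by
    unfold cA cB
    rw [h2]
    ring
  rw [e]
  refine neg_ne_zero.2 (pow_ne_zero 2 (mul_ne_zero (mul_ne_zero ?_ ?_) ?_)) <;>
    exact sub_ne_zero.2 fun h => absurd (hi h) (by decide)

/-- the relation of the orders of the Selmer group and of `Ш[2]` with the rank -/
theorem sel_eq (hELL : S_ELL) {a : Fin 3 → ℤ} (h : a 0 + a 1 + a 2 = 0) (hi : Function.Injective a)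
    (hfin : (SelJ a).Finite) {d : ℕ} (hd : (SelJ a).ncard = 2 ^ d) :
    ∃ r, d = 2 + r ∧ Finite (Sel2H (Sh (cA a) (cB a))) ∧
      Nat.card (Sel2H (Sh (cA a) (cB a))) = 2 ^ (2 + r) ∧
      Finite {x : Sha (Sh (cA a) (cB a)) // x + x = 0} ∧
      2 ^ Module.finrank ℤ (Sh (cA a) (cB a)).toAffine.Point *
        Nat.card {x : Sha (Sh (cA a) (cB a)) // x + x = 0} = 2 ^ r := by
  obtain ⟨h1, h2⟩ := hELL (cA a) (cB a) a hi (poly_eq h) hfin
  obtain ⟨h3, h4⟩ := Pool.Agent.Z864.SX.SELH _ _ _ _ _ (disc_ne h hi) (poly_eq h) h1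
  obtain ⟨h5, h6⟩ := Pool.Agent.Y214.SX.RKSHA _ _ _ _ _ (disc_ne h hi) (poly_eq h) h3
  obtain ⟨h7⟩ := Pool.Agent.Y833.SX.SEL2 _ _ _ _ _ (disc_ne h hi) (poly_eq h)
  rw [h4, h2, hd] at h6
  have h8 : 2 ^ 2 ∣ 2 ^ d := by
    rw [← h6, pow_add]
    exact (Dvd.intro_left _ rfl).mul_right _
  have h9 : 2 ≤ d := (Nat.pow_dvd_pow_iff_le_right (by norm_num)).1 h8
  obtain ⟨r, rfl⟩ := Nat.exists_eq_add_of_le h9
  refine ⟨r, rfl, Finite.of_equiv _ h7.symm, ?_, h5, ?_⟩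
  · rw [Nat.card_congr h7, h4, h2, hd]
  · have e : 4 * (2 ^ Module.finrank ℤ (Sh (cA a) (cB a)).toAffine.Point *
        Nat.card {x : Sha (Sh (cA a) (cB a)) // x + x = 0}) = 4 * 2 ^ r := by
      have e1 : (4 : ℕ) * 2 ^ r = 2 ^ (2 + r) := by rw [pow_add]; norm_num
      rw [e1, ← h6, pow_add]
      ring
    exact Nat.eq_of_mul_eq_mul_left (by norm_num) e

/-- the dimension of the 2-Selmer group modulo torsion -/
noncomputable def sr (W : WeierstrassCurve ℚ) : ℕ := Nat.log 2 (Nat.card (Sel2H W)) - 2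

theorem sr_eq {W : WeierstrassCurve ℚ} {r : ℕ} (h : Nat.card (Sel2H W) = 2 ^ (2 + r)) : sr W = r := by
  unfold sr
  rw [h, Nat.log_pow (by norm_num)]
  omega

/-! ### The families -/

/-- the families with the explicit hypotheses -/
structure Ey (κ : Type) where
  a : κ → Fin 3 → ℤ
  ha : ∀ k, Function.Injective (a k)
  h0 : ∀ k, a k 0 + a k 1 + a k 2 = 0
  c4 : ∀ k i j l, i ≠ j → i ≠ l → j ≠ l → ∀ s : ℤ, (a k i - a k j) * (a k i - a k l) ≠ s ^ 2
  ne : ∀ k l, k ≠ l → ∀ σ : Equiv.Perm (Fin 3), ∃ i j, i ≠ j ∧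
    ∀ s : ℤ, (a k i - a k j) * (a l (σ i) - a l (σ j)) ≠ s ^ 2
  T : Finset ℕ
  hT : TS T
  sup : ∀ k i j, i ≠ j → ∀ p : ℕ, p.Prime → (p : ℤ) ∣ a k i - a k j → p ∈ T

variable {κ : Type} (E : Ey κ)

/-- the curves -/
def Ey.cr (k : κ) : Cr E.T where
  g := 1
  hg := le_rfl
  a := E.a k
  inj := E.ha k
  supp := E.sup k

theorem Ey.ne0 (k : κ) {i j : Fin 3} (h : i ≠ j) : E.a k i - E.a k j ≠ 0 :=
  sub_ne_zero.2 fun h' => h (E.ha k h')

/-- a class which vanishes is the class of a square -/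
theorem sq_of_ct {T : Finset ℕ} (L : LB T) {z : ℤ} (hz : z ≠ 0)
    (hs : ∀ p : ℕ, p.Prime → (p : ℤ) ∣ z → p ∈ T) (h : (ct z : Option T → ZMod 2) = 0) :
    ∃ s : ℤ, z = s ^ 2 := by
  obtain ⟨s, -, hs⟩ := L.ct_sq z hz hs
  rw [h, Uo_zero, mul_one] at hs
  exact ⟨s, hs⟩

theorem add_self_lab {T : Finset ℕ} (x : Option T → ZMod 2) : x + x = 0 := CharTwo.add_self_eq_zero x

/-- the data -/
noncomputable def Ey.Fx (hB : S_IRRB) (L : LB E.T) : Fx E.T κ where
  c := E.cr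
  g1 := fun _ => rfl
  irr := fun k => by
    refine hB E.T (E.cr k) rfl ?_
    intro i j l hij hil hjl hct
    have h1 : (ct ((E.a k i - E.a k j) * (E.a k i - E.a k l)) : Option E.T → ZMod 2) = 0 := by
      rw [L.ct_mul _ _ (E.ne0 k hij) (E.ne0 k hil)]
      have : (ct (E.a k i - E.a k j) : Option E.T → ZMod 2) = ct (E.a k i - E.a k l) := hct
      rw [this]
      exact add_self_lab _
    obtain ⟨s, hs⟩ := sq_of_ct L (mul_ne_zero (E.ne0 k hij) (E.ne0 k hil)) (fun p hp hd => by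
      rcases (Nat.prime_iff_prime_int.1 hp).dvd_or_dvd hd with h | h
      · exact E.sup k i j hij p hp h
      · exact E.sup k i l hil p hp h) h1
    exact E.c4 k i j l hij hil hjl s hs
  ne := fun k l hkl => by
    rintro ⟨σ, hσ⟩
    obtain ⟨i, j, hij, h⟩ := E.ne k l hkl σ
    have hij' : σ i ≠ σ j := fun h' => hij (σ.injective h')
    have h1 : (ct ((E.a k i - E.a k j) * (E.a l (σ i) - E.a l (σ j))) : Option E.T → ZMod 2) = 0 := by
      rw [L.ct_mul _ _ (E.ne0 k hij) (E.ne0 l hij')]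
      have : (ct (E.a k i - E.a k j) : Option E.T → ZMod 2) = ct (E.a l (σ i) - E.a l (σ j)) :=
        hσ i j hij
      rw [this]
      exact add_self_lab _
    obtain ⟨s, hs⟩ := sq_of_ct L (mul_ne_zero (E.ne0 k hij) (E.ne0 l hij')) (fun p hp hd => by
      rcases (Nat.prime_iff_prime_int.1 hp).dvd_or_dvd hd with h | h
      · exact E.sup k i j hij p hp h
      · exact E.sup l (σ i) (σ j) hij' p hp h) h1
    exact h s hs

/-- the class of `D₀` -/
def Ey.Cond (D₀ D : ℤ) : Prop := 0 < D * D₀ ∧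
  ∀ (l : ℕ) [Fact l.Prime], l ∈ E.T → IsSquare ((D * D₀ : ℤ) : ℚ_[l])

theorem cls_iff {T : Finset ℕ} (L : LB T) (hLSQ : S_LSQ) {D₀ D : ℤ} (h0 : Squarefree D₀)
    (hD : Squarefree D) : clD T D = clD T D₀ ↔ (0 < D * D₀ ∧
      ∀ (l : ℕ) [Fact l.Prime], l ∈ T → IsSquare ((D * D₀ : ℤ) : ℚ_[l])) := by
  obtain ⟨g1, g2, g3⟩ := L.dec hD
  obtain ⟨g1', g2', g3'⟩ := L.dec h0
  have hn : (0 : ℤ) < (nD T D : ℕ) := by exact_mod_cast Nat.pos_of_ne_zero g2.ne_zero
  have hn' : (0 : ℤ) < (nD T D₀ : ℕ) := by exact_mod_cast Nat.pos_of_ne_zero g2'.ne_zero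
  constructor
  · intro h
    have e1 : (ct D : Option T → ZMod 2) = ct D₀ := congrArg Prod.fst h
    have e2 : lbl T (nD T D) = lbl T (nD T D₀) := congrArg Prod.snd h
    have e3 : D * D₀ = (Uo (ct D : Option T → ZMod 2)) ^ 2 * ((nD T D : ℕ) * (nD T D₀ : ℕ)) := by
      conv_lhs => rw [g1, g1', ← e1]
      ring
    constructor
    · rw [e3]
      exact mul_pos (by have := L.U0 (ct D : Option T → ZMod 2); positivity) (mul_pos hn hn')
    · intro l _ hl
      have h5 := L.sq _ _ g3 g3' e2 l hl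
      rw [e3]
      push_cast
      obtain ⟨r, hr⟩ := h5
      refine ⟨((Uo (ct D : Option T → ZMod 2) : ℤ) : ℚ_[l]) * r, ?_⟩
      rw [hr]
      ring
  · rintro ⟨h1, h2⟩
    have hsg : (ct D : Option T → ZMod 2) = ct D₀ := by
      funext o
      cases o with
      | none =>
        rw [ct_none, ct_none]
        rcases lt_or_gt_of_ne hD.ne_zero with h | h
        · rw [if_pos h, if_pos (by nlinarith)]
        · rw [if_neg (by omega), if_neg (by nlinarith)]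
      | some t =>
        rw [ct_some, ct_some]
        haveI := Fact.mk (L.pr t t.2)
        obtain ⟨r, hr⟩ := h2 t t.2
        have hr0 : r ≠ 0 := by
          rintro rfl
          rw [mul_zero] at hr
          exact (mul_ne_zero hD.ne_zero h0.ne_zero) (Int.cast_eq_zero.1 hr)
        have h3 : Padic.valuation (((D * D₀ : ℤ)) : ℚ_[(t : ℕ)]) = 2 * Padic.valuation r := by
          rw [hr, Padic.valuation_mul hr0 hr0]
          ring
        rw [Padic.valuation_intCast] at h3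
        have h4 : padicValInt t (D * D₀) = padicValInt t D + padicValInt t D₀ :=
          padicValInt.mul hD.ne_zero h0.ne_zero
        have h5 : (((padicValInt t D + padicValInt t D₀ : ℕ)) : ZMod 2) = 0 := by
          rw [← h4]
          have h6 : ∃ k : ℕ, padicValInt t (D * D₀) = 2 * k := by
            obtain ⟨k, hk⟩ : ∃ k : ℕ, (k : ℤ) = Padic.valuation r := by
              refine ⟨(Padic.valuation r).toNat, Int.toNat_of_nonneg ?_⟩
              omega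
            exact ⟨k, by omega⟩
          obtain ⟨k, hk⟩ := h6
          rw [hk, Nat.cast_mul]
          have : ((2 : ℕ) : ZMod 2) = 0 := by decide
          rw [this, zero_mul]
        rw [Nat.cast_add] at h5
        have h7 : ∀ x y : ZMod 2, x + y = 0 → x = y := by decide
        exact h7 _ _ h5
    refine Prod.ext hsg ?_
    show lbl T (nD T D) = lbl T (nD T D₀)
    have hc : Cop T (nD T D * nD T D₀) := L.cop_mul g3 g3'
    have h3 := hLSQ T L.pr L.two _ hc (fun p _ hp => by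
      obtain ⟨r, hr⟩ := h2 p hp
      have hU : ((Uo (ct D : Option T → ZMod 2) : ℤ) : ℚ_[p]) ≠ 0 := Int.cast_ne_zero.2 (L.U0 _)
      refine isSquare_of_mul_sq hU ⟨r, ?_⟩
      rw [← hr]
      have e3 : D * D₀ = (Uo (ct D : Option T → ZMod 2)) ^ 2 * ((nD T D : ℕ) * (nD T D₀ : ℕ)) := by
        conv_lhs => rw [g1, g1', ← hsg]
        ring
      rw [e3]
      push_cast
      ring)
    rw [L.add _ _ g3 g3'] at h3
    have h7 : ∀ x y : Option T → ZMod 2, x + y = 0 → x = y := by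
      intro x y h
      have := congrArg (· + y) h
      simp only [add_assoc, add_self_lab, add_zero, zero_add] at this
      exact this
    exact h7 _ _ h3

/-- the facts for the final theorem -/
structure FactsY : Prop extends FactsX where
  irrB : S_IRRB
  lsq : S_LSQ
  ell : S_ELL

/-- the curve of a triple of roots -/
abbrev cv (a : Fin 3 → ℤ) : WeierstrassCurve ℚ := Sh (cA a) (cB a)

theorem tw_sum {a : Fin 3 → ℤ} (h : a 0 + a 1 + a 2 = 0) (D : ℤ) :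
    tw D a 0 + tw D a 1 + tw D a 2 = 0 := by
  show D * a 0 + D * a 1 + D * a 2 = 0
  rw [← mul_add, ← mul_add, h, mul_zero]

theorem Ey.out [Fintype κ] (H : FactsY) :
    (∀ D : ℤ, Squarefree D → ∀ k, Finite (Sel2H (cv (tw D (E.a k)))) ∧
      Nat.card (Sel2H (cv (tw D (E.a k)))) = 2 ^ (2 + sr (cv (tw D (E.a k)))) ∧
      Finite {x : Sha (cv (tw D (E.a k))) // x + x = 0} ∧
      2 ^ Module.finrank ℤ (cv (tw D (E.a k))).toAffine.Point *
        Nat.card {x : Sha (cv (tw D (E.a k))) // x + x = 0} = 2 ^ sr (cv (tw D (E.a k)))) ∧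
    ∀ D₀ : ℤ, Squarefree D₀ → ∀ C : ℤ → Prop,
      (∀ D, C D ↔ Squarefree D ∧ E.Cond D₀ D) →
      (∀ D, C D → ∀ k, ((sr (cv (tw D (E.a k))) : ℕ) : ZMod 2) = (sr (cv (tw D₀ (E.a k))) : ℕ)) ∧
      (∃ c : ℝ, 0 < c ∧
        Tendsto (fun X : ℕ => ({D : ℤ | |D| ≤ X ∧ C D}.ncard : ℝ) / X) atTop (𝓝 c)) ∧
      ∀ 𝒜 : Set (κ → ℕ),
        Tendsto (fun X : ℕ => ({D : ℤ | (|D| ≤ X ∧ C D) ∧ (fun k => sr (cv (tw D (E.a k)))) ∈ 𝒜}.ncard
          : ℝ) / ({D : ℤ | |D| ≤ X ∧ C D}.ncard : ℝ)) atTop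
          (𝓝 (∑' e : κ → ℕ, if e ∈ 𝒜 then
            ∏ k, lawc ((sr (cv (tw D₀ (E.a k))) : ℕ) : ZMod 2) (e k) else 0)) := by
  have L := LB.of H.lbl E.hT
  obtain ⟨dd, h1, h2⟩ := (E.Fx H.irrB L).joint L H.toFactsX
  have h3 : ∀ D : ℤ, Squarefree D → ∀ k, dd k D = 2 + sr (cv (tw D (E.a k))) ∧
      Finite (Sel2H (cv (tw D (E.a k)))) ∧
      Nat.card (Sel2H (cv (tw D (E.a k)))) = 2 ^ (2 + sr (cv (tw D (E.a k)))) ∧
      Finite {x : Sha (cv (tw D (E.a k))) // x + x = 0} ∧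
      2 ^ Module.finrank ℤ (cv (tw D (E.a k))).toAffine.Point *
        Nat.card {x : Sha (cv (tw D (E.a k))) // x + x = 0} = 2 ^ sr (cv (tw D (E.a k))) := by
    intro D hD k
    obtain ⟨a1, a2⟩ := h1 D hD k
    obtain ⟨r, b1, b2, b3, b4, b5⟩ := sel_eq H.ell (tw_sum (E.h0 k) D)
      (Pool.Agent.Y723.PT.tw_inj hD.ne_zero (E.ha k)) a1 a2
    have b6 : sr (cv (tw D (E.a k))) = r := sr_eq b3
    rw [b6]
    exact ⟨b1, b2, b3, b4, b5⟩
  refine ⟨fun D hD k => (h3 D hD k).2, fun D₀ hD₀ => ?_⟩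
  obtain ⟨π, hpar, hπ⟩ := h2 (clD E.T D₀)
  intro C hC
  have hp0 : ∀ D, Squarefree D → clD E.T D = clD E.T D₀ → ∀ k,
      π k = ((sr (cv (tw D (E.a k))) : ℕ) : ZMod 2) := by
    intro D hD hcl k
    rw [← hpar D hD hcl k, (h3 D hD k).1, Nat.cast_add]
    have : ((2 : ℕ) : ZMod 2) = 0 := by decide
    rw [this, zero_add]
  have hπ0 : π = fun k => ((sr (cv (tw D₀ (E.a k))) : ℕ) : ZMod 2) :=
    funext fun k => hp0 D₀ hD₀ rfl k
  have hC' : ∀ D, C D ↔ Squarefree D ∧ clD E.T D = clD E.T D₀ := by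
    intro D
    rw [hC]
    exact and_congr_right fun hD => (cls_iff L H.lsq hD₀ hD).symm
  obtain ⟨c, hc, h4, h5⟩ := hπ C hC'
  have hpk : ∀ k, π k = ((sr (cv (tw D₀ (E.a k))) : ℕ) : ZMod 2) := fun k => congrFun hπ0 k
  simp only [← hpk]
  refine ⟨fun D hCD k => ?_, ?_, ?_⟩
  · obtain ⟨hD, hcl⟩ := (hC' D).1 hCD
    exact (hp0 D hD hcl k).symm
  · refine ⟨c, hc, h4.congr fun X => ?_⟩
    rw [ncard_Icc]
  · intro 𝒜
    obtain ⟨G, hG⟩ : ∃ G : ℤ → Prop, ∀ D, G D ↔ (fun k => sr (cv (tw D (E.a k)))) ∈ 𝒜 :=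
      ⟨_, fun _ => Iff.rfl⟩
    have h6 := lim_of (J := κ) (ℓ := fun e => ∏ k, lawc (π k) (e k))
      (fun e => prod_nonneg fun k _ => lawc_nonneg _ _)
      (hasSum_prod (f := fun k e => lawc (π k) e) (fun k e => lawc_nonneg _ _)
        fun k => hasSum_lawc _) dd (fun _ => 2) C hc h4 h5 𝒜 G (by
      intro D hCD
      rw [hG]
      obtain ⟨hD, -⟩ := (hC D).1 hCD
      constructor
      · intro h
        exact ⟨_, h, fun k => (h3 D hD k).1⟩
      · rintro ⟨r, hr, h7⟩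
        have e : r = fun k => sr (cv (tw D (E.a k))) := by
          funext k
          have a1 := h7 k
          rw [(h3 D hD k).1] at a1
          omega
        rw [← e]
        exact hr)
    refine h6.congr fun X => ?_
    have e : {D : ℤ | (|D| ≤ X ∧ C D) ∧ (fun k => sr (cv (tw D (E.a k)))) ∈ 𝒜} =
        {D : ℤ | |D| ≤ X ∧ (C D ∧ G D)} := by
      ext D
      rw [Set.mem_ofPred_eq, Set.mem_ofPred_eq, hG, and_assoc]
    rw [e, ncard_Icc X C (i := fun D => Classical.propDecidable _),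
      ncard_Icc X (fun D => C D ∧ G D) (i := fun D => instDecidableAnd)]

end Q44.JQ.X
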