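import Pool.Agent.Q44.JQ.M.Low

/-!
# The moments of the law
-/

set_option autoImplicit false
set_option linter.unusedSectionVars false

open scoped Classical Topology

namespace Q44.JQ.X

open Finset Filter
open Pool.Agent.Q269.SL (ce ce_pos ce_succ ce_succ_le ce_zero hasSum_ce law2 law2_eq)
open Pool.Agent.Q269.MF (bet)

theorem summ_all (y : ℝ) : Summable fun r => ce r * y ^ r := by
  refine summable_of_ratio_norm_eventually_le (r := 1 / 2) (by norm_num) ?_
  have h1 : Tendsto (fun n : ℕ => (1 / 2 : ℝ) ^ n * |y|) atTop (𝓝 (0 * |y|)) :=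
    (tendsto_pow_atTop_nhds_zero_of_lt_one (by norm_num) (by norm_num)).mul_const _
  rw [zero_mul] at h1
  filter_upwards [h1.eventually_le_const (show (0 : ℝ) < 1 / 2 by norm_num)] with n hn
  rw [norm_mul, norm_mul, norm_pow, norm_pow, Real.norm_eq_abs, Real.norm_eq_abs, Real.norm_eq_abs,
    abs_of_pos (ce_pos _), abs_of_pos (ce_pos _), pow_succ]
  have h2 := ce_succ_le n
  have h3 := ce_pos n
  calc ce (n + 1) * (|y| ^ n * |y|) ≤ ce n * (1 / 2) ^ n * (|y| ^ n * |y|) :=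
        mul_le_mul_of_nonneg_right h2 (by positivity)
    _ = ((1 / 2) ^ n * |y|) * (ce n * |y| ^ n) := by ring
    _ ≤ 1 / 2 * (ce n * |y| ^ n) := mul_le_mul_of_nonneg_right hn (by positivity)

/-- Euler's series -/
noncomputable def GG (y : ℝ) : ℝ := ∑' r, ce r * y ^ r

theorem hasSum_GG (y : ℝ) : HasSum (fun r => ce r * y ^ r) (GG y) := (summ_all y).hasSum

theorem GG_double (x : ℝ) : GG (2 * x) = (1 + x) * GG x := by
  have s1 := summ_all x
  have s2 := summ_all (2 * x)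
  have e1 : GG (2 * x) = 1 + ∑' r, ce (r + 1) * (2 * x) ^ (r + 1) := by
    unfold GG
    rw [s2.tsum_eq_zero_add]
    simp [ce_zero]
  have e2 : GG x = 1 + ∑' r, ce (r + 1) * x ^ (r + 1) := by
    unfold GG
    rw [s1.tsum_eq_zero_add]
    simp [ce_zero]
  have e3 : ∑' r, ce (r + 1) * (2 * x) ^ (r + 1) = ∑' r, ce (r + 1) * x ^ (r + 1) + x * GG x := by
    unfold GG
    rw [← tsum_mul_left, ← Summable.tsum_add ((summable_nat_add_iff 1).2 s1) (s1.mul_left x)]
    refine tsum_congr fun r => ?_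
    rw [← ce_succ r, mul_pow, pow_succ x]
    ring
  rw [e1, e3, ← add_assoc, ← e2]
  ring

theorem GG_pos (j : ℕ) : bet * GG (2 ^ j) = ∏ i ∈ range j, (1 + (2 : ℝ) ^ i) := by
  induction j with
  | zero =>
    rw [pow_zero, range_zero, prod_empty]
    have h := hasSum_ce
    have h2 := (hasSum_GG 1).mul_left bet
    simp only [one_pow, mul_one] at h2
    exact h2.unique h
  | succ j ih =>
    rw [pow_succ, mul_comm ((2 : ℝ) ^ j) 2, GG_double, prod_range_succ, ← ih]
    ring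

theorem GG_neg (j : ℕ) : GG (-(2 ^ (j + 1))) = 0 := by
  induction j with
  | zero =>
    have e : (-(2 ^ (0 + 1)) : ℝ) = 2 * (-1) := by norm_num
    rw [e, GG_double]
    ring
  | succ j ih =>
    have e : (-(2 ^ (j + 1 + 1)) : ℝ) = 2 * (-(2 ^ (j + 1))) := by ring
    rw [e, GG_double, ih, mul_zero]

theorem lawc_two (c : ZMod 2) (e : ℕ) :
    lawc c e = (1 + (-1) ^ c.val * (-1) ^ e) * law2 e := by
  unfold lawc
  have h : ∀ x : ZMod 2, x = 0 ∨ x = 1 := by decide
  rcases Nat.even_or_odd e with he | he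
  · have h1 : ((e : ℕ) : ZMod 2) = 0 := (ZMod.natCast_eq_zero_iff_even).2 he
    rw [h1, he.neg_one_pow]
    rcases h c with rfl | rfl
    · rw [if_pos rfl]
      norm_num
    · rw [if_neg (by decide)]
      have : (1 : ZMod 2).val = 1 := rfl
      rw [this]
      norm_num
  · have h1 : ((e : ℕ) : ZMod 2) = 1 := (ZMod.natCast_eq_one_iff_odd).2 he
    rw [h1, he.neg_one_pow]
    rcases h c with rfl | rfl
    · rw [if_neg (by decide)]
      norm_num
    · rw [if_pos rfl]
      have : (1 : ZMod 2).val = 1 := rfl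
      rw [this]
      norm_num

/-- **the moments of the law** -/
theorem mom_law (c : ZMod 2) (j : ℕ) :
    HasSum (fun e => lawc c e * ((2 : ℝ) ^ e) ^ j) (∏ i ∈ range j, (1 + (2 : ℝ) ^ (i + 1))) := by
  have h1 := ((hasSum_GG (2 ^ (j + 1))).mul_left (bet / 2)).add
    ((hasSum_GG (-(2 ^ (j + 1)))).mul_left (bet / 2 * (-1) ^ c.val))
  have e1 : bet / 2 * GG (2 ^ (j + 1)) + bet / 2 * (-1) ^ c.val * GG (-(2 ^ (j + 1))) =
      ∏ i ∈ range j, (1 + (2 : ℝ) ^ (i + 1)) := by
    rw [GG_neg, mul_zero, add_zero]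
    have h2 := GG_pos (j + 1)
    rw [prod_range_succ'] at h2
    have e2 : bet / 2 * GG (2 ^ (j + 1)) = bet * GG (2 ^ (j + 1)) / 2 := by ring
    rw [e2, h2]
    norm_num
  rw [e1] at h1
  have e3 : (fun e => lawc c e * ((2 : ℝ) ^ e) ^ j) = fun e => bet / 2 * (ce e * (2 ^ (j + 1)) ^ e) +
      bet / 2 * (-1) ^ c.val * (ce e * (-(2 ^ (j + 1))) ^ e) := by
    funext e
    have e4 : ((2 : ℝ) ^ (j + 1)) ^ e = 2 ^ e * ((2 : ℝ) ^ e) ^ j := by
      rw [← pow_mul, ← pow_mul, ← pow_add]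
      congr 1
      ring
    rw [lawc_two, law2_eq, neg_pow ((2 : ℝ) ^ (j + 1)) e, e4]
    unfold ce
    ring
  rw [e3]
  exact h1

end Q44.JQ.X
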