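import Pool.Agent.Q44.JQ.X.MomB
import Pool.Agent.Q44.JQ.X.Out
import Pool.Agent.TH841.PT.Fin1

/-!
# The joint moments of the orders of the 2-Selmer groups
-/

set_option autoImplicit false
set_option linter.unusedSectionVars false

open scoped Classical Topology

namespace Q44.JQ.X

open Finset Module Filter
open Q44.JQ Q44.JQ.W Q44.JQ.M
open Pool.Agent.TH344.JG (LocJ SelJ PR df)
open Pool.Agent.Y723.PT (tw)
open Pool.Agent.W307.SE (SelR)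
open Pool.Agent.W307.RT (Sh)
open Pool.Agent.TH841.SH.D (Sha)
open Pool.Agent.Y667.SX (Sel2H)

theorem cA_tw (a : Fin 3 → ℤ) (D : ℤ) : cA (tw D a) = D ^ 2 * cA a := by
  show D * a 0 * (D * a 1) + D * a 0 * (D * a 2) + D * a 1 * (D * a 2) =
    D ^ 2 * (a 0 * a 1 + a 0 * a 2 + a 1 * a 2)
  ring

theorem cB_tw (a : Fin 3 → ℤ) (D : ℤ) : cB (tw D a) = D ^ 3 * cB a := by
  show -(D * a 0 * (D * a 1) * (D * a 2)) = D ^ 3 * -(a 0 * a 1 * a 2)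
  ring

/-- the order of the Selmer group, by squarefree integers -/
theorem card_sel {a : Fin 3 → ℤ} (h : a 0 + a 1 + a 2 = 0) (hi : Function.Injective a) {D : ℤ}
    (hD : D ≠ 0) : Nat.card (Sel2H (cv (tw D a))) = (SelR (D ^ 2 * cA a) (D ^ 3 * cB a)).ncard := by
  have hfin : (SelR (D ^ 2 * cA a) (D ^ 3 * cB a)).Finite :=
    (Pool.Agent.TH639.SL.sel_tw (disc_ne h hi) (poly_eq h) hD).1
  have hT : tw D a 0 + tw D a 1 + tw D a 2 = 0 := tw_sum h D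
  have hiT := Pool.Agent.Y723.PT.tw_inj hD hi
  rw [← cA_tw, ← cB_tw] at hfin ⊢
  obtain ⟨h3, h4⟩ := Pool.Agent.Z864.SX.SELH _ _ _ _ _ (disc_ne hT hiT) (poly_eq hT) hfin
  obtain ⟨h7⟩ := Pool.Agent.Y833.SX.SEL2 _ _ _ _ _ (disc_ne hT hiT) (poly_eq hT)
  rw [Nat.card_congr h7, h4]

/-- bounded moments -/
theorem mom_bd {a : Fin 3 → ℤ} (h : a 0 + a 1 + a 2 = 0) (hi : Function.Injective a) (A : ℕ) :
    ∃ B : ℝ, 0 ≤ B ∧ ∀ X : ℕ, 1 ≤ X → ∑ D ∈ (Icc (-(X : ℤ)) X).filter (fun D => D ≠ 0),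
      (Nat.card (Sel2H (cv (tw D a))) : ℝ) ^ A ≤ B * X := by
  obtain ⟨C, hC⟩ := Pool.Agent.TH841.PT.sel_poly Pool.Agent.TH841.PT.avsq (disc_ne h hi) (poly_eq h)
    Polynomial.X Polynomial.X_ne_zero A 1
  refine ⟨max C 0 * 3, by positivity, fun X hX => ?_⟩
  have h1 := hC (-(X : ℤ) - 1) (2 * X + 1) (by omega) (by
    rw [pow_one, abs_le]
    push_cast
    constructor <;> omega)
  have e1 : (Ioc (-(X : ℤ) - 1) (-(X : ℤ) - 1 + ((2 * X + 1 : ℕ) : ℤ))).filter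
      (fun t => (Polynomial.X : Polynomial ℤ).eval t ≠ 0) =
      (Icc (-(X : ℤ)) X).filter (fun D => D ≠ 0) := by
    ext D
    rw [mem_filter, mem_filter, mem_Ioc, mem_Icc, Polynomial.eval_X]
    push_cast
    constructor
    · rintro ⟨⟨b1, b2⟩, b3⟩
      exact ⟨⟨by omega, by omega⟩, b3⟩
    · rintro ⟨⟨b1, b2⟩, b3⟩
      exact ⟨⟨by omega, by omega⟩, b3⟩
  rw [e1] at h1
  have h2 : ∑ D ∈ (Icc (-(X : ℤ)) X).filter (fun D => D ≠ 0),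
      (Nat.card (Sel2H (cv (tw D a))) : ℝ) ^ A = ∑ t ∈ (Icc (-(X : ℤ)) X).filter (fun D => D ≠ 0),
        ((SelR (((Polynomial.X : Polynomial ℤ).eval t) ^ 2 * cA a)
          (((Polynomial.X : Polynomial ℤ).eval t) ^ 3 * cB a)).ncard : ℝ) ^ A := by
    refine sum_congr rfl fun D hD => ?_
    rw [card_sel h hi (mem_filter.1 hD).2, Polynomial.eval_X]
  rw [h2]
  refine h1.trans ?_
  have hX' : (1 : ℝ) ≤ X := by exact_mod_cast hX
  have h3 : C * ((2 * X + 1 : ℕ) : ℝ) ≤ max C 0 * ((2 * X + 1 : ℕ) : ℝ) :=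
    mul_le_mul_of_nonneg_right (le_max_left _ _) (Nat.cast_nonneg _)
  refine h3.trans ?_
  rw [mul_assoc]
  refine mul_le_mul_of_nonneg_left ?_ (le_max_right _ _)
  push_cast
  linarith

theorem prod_le_sum {κ : Type} [Fintype κ] (x : κ → ℝ) (hx : ∀ k, 1 ≤ x k) (a : κ → ℕ) (j : κ) :
    x j * ∏ k, x k ^ a k ≤ ∑ k, x k ^ (∑ k, a k + 1) := by
  obtain ⟨k₀, -, h0⟩ := exists_max_image (univ : Finset κ) x ⟨j, mem_univ j⟩
  have hp : ∀ k, 0 ≤ x k := fun k => zero_le_one.trans (hx k)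
  have h1 : ∏ k, x k ^ a k ≤ x k₀ ^ (∑ k, a k) := by
    rw [← prod_pow_eq_pow_sum]
    exact prod_le_prod (fun k _ => pow_nonneg (hp k) _) fun k _ =>
      pow_le_pow_left₀ (hp k) (h0 k (mem_univ k)) _
  calc x j * ∏ k, x k ^ a k ≤ x k₀ * x k₀ ^ (∑ k, a k) :=
        mul_le_mul (h0 j (mem_univ j)) h1 (prod_nonneg fun k _ => pow_nonneg (hp k) _) (hp k₀)
    _ = x k₀ ^ (∑ k, a k + 1) := by rw [pow_succ, mul_comm]
    _ ≤ _ := single_le_sum (f := fun k => x k ^ (∑ k, a k + 1)) (fun k _ => pow_nonneg (hp k) _)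
        (mem_univ k₀)

variable {κ : Type} (E : Ey κ)

/-- the vector of the Selmer ranks -/
noncomputable def Ey.w (D : ℤ) (k : κ) : ℕ := sr (cv (tw D (E.a k)))

/-- the tails -/
theorem Ey.tail [Fintype κ] (H : FactsY) (a : κ → ℕ) : ∃ B : ℝ, 0 ≤ B ∧ ∀ C : ℤ → Prop,
    (∀ D, C D → Squarefree D) → ∀ K X : ℕ, 1 ≤ X →
      ∑ D ∈ (Icc (-(X : ℤ)) X).filter (fun D => C D ∧ ¬ ∀ j, E.w D j < K),
        ∏ j, ((2 : ℝ) ^ E.w D j) ^ a j ≤ B * (1 / 2) ^ K * X := by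
  obtain ⟨A, hA⟩ : ∃ A : ℕ, A = ∑ k, a k + 1 := ⟨_, rfl⟩
  choose B hB0 hB using fun k => mom_bd (E.h0 k) (E.ha k) A
  refine ⟨∑ k, B k, sum_nonneg fun k _ => hB0 k, fun C hC K X hX => ?_⟩
  have h1 : ∀ D ∈ (Icc (-(X : ℤ)) X).filter (fun D => C D ∧ ¬ ∀ j, E.w D j < K),
      ∏ j, ((2 : ℝ) ^ E.w D j) ^ a j ≤
        (1 / 2) ^ K * ∑ k, (Nat.card (Sel2H (cv (tw D (E.a k)))) : ℝ) ^ A := by
    intro D hD
    obtain ⟨-, hCD, hK⟩ := mem_filter.1 hD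
    push Not at hK
    obtain ⟨j, hj⟩ := hK
    have h2 := prod_le_sum (fun k => (2 : ℝ) ^ E.w D k) (fun k => one_le_pow₀ (by norm_num)) a j
    rw [← hA] at h2
    have h3 : ∀ k, ((2 : ℝ) ^ E.w D k) ^ A ≤ (Nat.card (Sel2H (cv (tw D (E.a k)))) : ℝ) ^ A := by
      intro k
      refine pow_le_pow_left₀ (by positivity) ?_ _
      have h4 := ((E.out H).1 D (hC D hCD) k).2.1
      rw [h4]
      push_cast
      exact pow_le_pow_right₀ (by norm_num) (Nat.le_add_left _ _)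
    have h5 : (2 : ℝ) ^ K ≤ 2 ^ E.w D j := pow_le_pow_right₀ (by norm_num) hj
    have h6 : 0 ≤ ∏ k, ((2 : ℝ) ^ E.w D k) ^ a k := prod_nonneg fun k _ => by positivity
    have h7 : (2 : ℝ) ^ K * ∏ k, ((2 : ℝ) ^ E.w D k) ^ a k ≤
        ∑ k, (Nat.card (Sel2H (cv (tw D (E.a k)))) : ℝ) ^ A :=
      (mul_le_mul_of_nonneg_right h5 h6).trans (h2.trans (sum_le_sum fun k _ => h3 k))
    calc ∏ j, ((2 : ℝ) ^ E.w D j) ^ a j = (1 / 2) ^ K * ((2 : ℝ) ^ K *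
          ∏ k, ((2 : ℝ) ^ E.w D k) ^ a k) := by
          rw [← mul_assoc, ← mul_pow]
          norm_num
      _ ≤ _ := mul_le_mul_of_nonneg_left h7 (by positivity)
  refine (sum_le_sum h1).trans ?_
  rw [← mul_sum, sum_comm]
  have h2 : ∑ k, ∑ D ∈ (Icc (-(X : ℤ)) X).filter (fun D => C D ∧ ¬ ∀ j, E.w D j < K),
      (Nat.card (Sel2H (cv (tw D (E.a k)))) : ℝ) ^ A ≤ ∑ k, B k * X := by
    refine sum_le_sum fun k _ => le_trans ?_ (hB k X hX)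
    refine sum_le_sum_of_subset_of_nonneg ?_ fun _ _ _ => by positivity
    intro D hD
    obtain ⟨h3, h4, -⟩ := mem_filter.1 hD
    exact mem_filter.2 ⟨h3, (hC D h4).ne_zero⟩
  rw [← sum_mul] at h2
  calc (1 / 2 : ℝ) ^ K * ∑ k, ∑ D ∈ (Icc (-(X : ℤ)) X).filter (fun D => C D ∧ ¬ ∀ j, E.w D j < K),
        (Nat.card (Sel2H (cv (tw D (E.a k)))) : ℝ) ^ A ≤ (1 / 2) ^ K * ((∑ k, B k) * X) :=
        mul_le_mul_of_nonneg_left h2 (by positivity)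
    _ = _ := by ring

end Q44.JQ.X
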