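import Pool.Agent.Q44.JQ.F.Base
import Pool.Agent.Q44.JQ.X.Out
import Pool.Agent.Q261.JQ.PAR0

/-!
# The facts for the theorem on families of elliptic curves
-/

set_option autoImplicit false

namespace Q44.JQ.X

open Q44.JQ

theorem factsY : FactsY :=
  ⟨⟨F.arxe, F.adj0, F.iso1, F.omv, F.laj2, F.sqm, F.lbl, Pool.Agent.Q261.JQ.t_PAR0 F.id⟩,
    F.irrB, F.lsq, F.ell⟩

end Q44.JQ.X
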