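import Pool.Agent.Q44.JQ.X.MomA

/-!
# Convergence of the moments from the law and bounds for higher moments
-/

set_option autoImplicit false
set_option linter.unusedSectionVars false

open scoped Classical Topology

namespace Q44.JQ.X

open Finset Filter

variable {J : Type} [Fintype J]

/-- the sum over the elements with all components at most `K` -/
theorem box_lim {lw f : J → ℕ → ℝ} (w : ℤ → J → ℕ) (C : ℤ → Prop) {c : ℝ}
    (h4 : ∀ (r : J → ℕ) (Q : ℤ → Prop), (∀ D, Q D ↔ w D = r) →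
      Tendsto (fun X : ℕ => (((Icc (-(X : ℤ)) X).filter fun D => C D ∧ Q D).card : ℝ) / X) atTop
        (𝓝 ((∏ j, lw j (r j)) * c))) (K : ℕ) :
    Tendsto (fun X : ℕ => (∑ D ∈ (Icc (-(X : ℤ)) X).filter (fun D => C D ∧ ∀ j, w D j < K),
      ∏ j, f j (w D j)) / X) atTop (𝓝 ((∏ j, ∑ i ∈ range K, lw j i * f j i) * c)) := by
  obtain ⟨Q, hQ⟩ : ∃ Q : (J → ℕ) → ℤ → Prop, ∀ r D, Q r D ↔ w D = r := ⟨_, fun _ _ => Iff.rfl⟩
  have e1 : ∀ X : ℕ, (∑ D ∈ (Icc (-(X : ℤ)) X).filter (fun D => C D ∧ ∀ j, w D j < K),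
      ∏ j, f j (w D j)) / (X : ℝ) = ∑ r ∈ Fintype.piFinset (fun _ : J => range K),
        (∏ j, f j (r j)) * ((((Icc (-(X : ℤ)) X).filter fun D => C D ∧ Q r D).card : ℝ) / X) := by
    intro X
    have h1 : ∀ D ∈ (Icc (-(X : ℤ)) X).filter (fun D => C D ∧ ∀ j, w D j < K),
        w D ∈ Fintype.piFinset (fun _ : J => range K) := by
      intro D hD
      rw [Fintype.mem_piFinset]
      exact fun j => mem_range.2 ((mem_filter.1 hD).2.2 j)
    rw [← sum_fiberwise_of_maps_to h1, sum_div]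
    refine sum_congr rfl fun r hr => ?_
    have h2 : ((Icc (-(X : ℤ)) X).filter (fun D => C D ∧ ∀ j, w D j < K)).filter (fun D => w D = r) =
        (Icc (-(X : ℤ)) X).filter fun D => C D ∧ Q r D := by
      ext D
      simp only [mem_filter, hQ]
      constructor
      · rintro ⟨⟨a1, a2, -⟩, a4⟩
        exact ⟨a1, a2, a4⟩
      · rintro ⟨a1, a2, a3⟩
        refine ⟨⟨a1, a2, fun j => ?_⟩, a3⟩
        rw [a3]
        exact mem_range.1 (Fintype.mem_piFinset.1 hr j)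
    rw [h2, sum_congr rfl (g := fun _ => ∏ j, f j (r j)) fun D hD => by
      rw [(hQ r D).1 (mem_filter.1 hD).2.2], sum_const, nsmul_eq_mul]
    ring
  have e2 : (∏ j, ∑ i ∈ range K, lw j i * f j i) * c =
      ∑ r ∈ Fintype.piFinset (fun _ : J => range K), (∏ j, f j (r j)) * ((∏ j, lw j (r j)) * c) := by
    rw [Finset.prod_univ_sum, sum_mul]
    refine sum_congr rfl fun r _ => ?_
    rw [prod_mul_distrib]
    ring
  rw [e2]
  simp only [e1]
  refine tendsto_finsetSum _ fun r _ => ?_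
  exact (h4 r (Q r) (hQ r)).const_mul _

/-- **convergence of the sums** -/
theorem lim_mom {lw f : J → ℕ → ℝ} {m : J → ℝ}
    (hm : ∀ j, HasSum (fun e => lw j e * f j e) (m j)) (w : ℤ → J → ℕ) (C : ℤ → Prop) {c : ℝ}
    (h4 : ∀ (r : J → ℕ) (Q : ℤ → Prop), (∀ D, Q D ↔ w D = r) →
      Tendsto (fun X : ℕ => (((Icc (-(X : ℤ)) X).filter fun D => C D ∧ Q D).card : ℝ) / X) atTop
        (𝓝 ((∏ j, lw j (r j)) * c))) (hf : ∀ j e, 0 ≤ f j e) {B : ℝ}
    (ht : ∀ K X : ℕ, 1 ≤ X → ∑ D ∈ (Icc (-(X : ℤ)) X).filter (fun D => C D ∧ ¬ ∀ j, w D j < K),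
      ∏ j, f j (w D j) ≤ B * (1 / 2) ^ K * X) :
    Tendsto (fun X : ℕ => (∑ D ∈ (Icc (-(X : ℤ)) X).filter (fun D => C D), ∏ j, f j (w D j)) / X)
      atTop (𝓝 ((∏ j, m j) * c)) := by
  have hK : Tendsto (fun K : ℕ => (∏ j, ∑ i ∈ range K, lw j i * f j i) * c) atTop
      (𝓝 ((∏ j, m j) * c)) :=
    (tendsto_finsetProd _ fun j _ => (hm j).tendsto_sum_nat).mul_const c
  have hB : Tendsto (fun K : ℕ => B * (1 / 2 : ℝ) ^ K) atTop (𝓝 (B * 0)) :=
    (tendsto_pow_atTop_nhds_zero_of_lt_one (by norm_num) (by norm_num)).const_mul _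
  rw [mul_zero] at hB
  rw [Metric.tendsto_nhds]
  intro ε hε
  obtain ⟨K, hK1, hK2⟩ := ((Metric.tendsto_nhds.1 hK (ε / 3) (by positivity)).and
    (hB.eventually_lt_const (show (0 : ℝ) < ε / 3 by positivity))).exists
  filter_upwards [Metric.tendsto_nhds.1 (box_lim (lw := lw) (f := f) w C h4 K) (ε / 3) (by positivity),
    eventually_ge_atTop 1] with X h5 hX
  have hX0 : (0 : ℝ) < X := by exact_mod_cast hX
  have hsplit : ∑ D ∈ (Icc (-(X : ℤ)) X).filter (fun D => C D), ∏ j, f j (w D j) =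
      ∑ D ∈ (Icc (-(X : ℤ)) X).filter (fun D => C D ∧ ∀ j, w D j < K), ∏ j, f j (w D j) +
      ∑ D ∈ (Icc (-(X : ℤ)) X).filter (fun D => C D ∧ ¬ ∀ j, w D j < K), ∏ j, f j (w D j) := by
    rw [← sum_filter_add_sum_filter_not ((Icc (-(X : ℤ)) X).filter (fun D => C D))
      (fun D => ∀ j, w D j < K), filter_filter, filter_filter]
  have h6 := ht K X hX
  have h7 : 0 ≤ ∑ D ∈ (Icc (-(X : ℤ)) X).filter (fun D => C D ∧ ¬ ∀ j, w D j < K),
      ∏ j, f j (w D j) := sum_nonneg fun D _ => prod_nonneg fun j _ => hf j _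
  rw [hsplit, add_div]
  have h8 : (∑ D ∈ (Icc (-(X : ℤ)) X).filter (fun D => C D ∧ ¬ ∀ j, w D j < K),
      ∏ j, f j (w D j)) / X ≤ B * (1 / 2) ^ K := (div_le_iff₀ hX0).2 h6
  have h9 : 0 ≤ (∑ D ∈ (Icc (-(X : ℤ)) X).filter (fun D => C D ∧ ¬ ∀ j, w D j < K),
      ∏ j, f j (w D j)) / X := div_nonneg h7 hX0.le
  rw [Real.dist_eq] at h5 hK1 ⊢
  rw [abs_lt] at h5 hK1 ⊢
  constructor <;> linarith [h5.1, h5.2, hK1.1, hK1.2]

end Q44.JQ.X
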