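import Pool.Agent.Q44.JQ.X.MomC

/-!
# The joint moments, final form
-/

set_option autoImplicit false
set_option linter.unusedSectionVars false

open scoped Classical Topology

namespace Q44.JQ.X

open Finset Module Filter
open Q44.JQ Q44.JQ.W Q44.JQ.M
open Pool.Agent.TH344.JG (LocJ SelJ PR df)
open Pool.Agent.Y723.PT (tw)
open Pool.Agent.Y667.SX (Sel2H)

variable {κ : Type} (E : Ey κ)

/-- the limits in one class -/
theorem Ey.raw [Fintype κ] (H : FactsY) (x : Cl E.T) : ∃ π : κ → ZMod 2, ∀ C : ℤ → Prop,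
    (∀ D, C D ↔ Squarefree D ∧ clD E.T D = x) → ∃ c : ℝ, 0 < c ∧
      Tendsto (fun X : ℕ => (((Icc (-(X : ℤ)) X).filter fun D => C D).card : ℝ) / X) atTop (𝓝 c) ∧
      ∀ (r : κ → ℕ) (Q : ℤ → Prop), (∀ D, Q D ↔ E.w D = r) →
        Tendsto (fun X : ℕ => (((Icc (-(X : ℤ)) X).filter fun D => C D ∧ Q D).card : ℝ) / X) atTop
          (𝓝 ((∏ k, lawc (π k) (r k)) * c)) := by
  have L := LB.of H.lbl E.hT
  obtain ⟨dd, h1, h2⟩ := (E.Fx H.irrB L).joint L H.toFactsX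
  obtain ⟨π, -, hπ⟩ := h2 x
  refine ⟨π, fun C hC => ?_⟩
  obtain ⟨c, hc, h3, h4⟩ := hπ C hC
  refine ⟨c, hc, h3, fun r Q hQ => ?_⟩
  obtain ⟨Q', hQ'⟩ : ∃ Q' : ℤ → Prop, ∀ D, Q' D ↔ ∀ k, dd k D = 2 + r k := ⟨_, fun _ => Iff.rfl⟩
  refine (h4 r Q' hQ').congr fun X => ?_
  congr 3
  refine filter_congr fun D _ => and_congr_right fun hCD => ?_
  have hD := ((hC D).1 hCD).1
  rw [hQ, hQ', funext_iff]
  refine forall_congr' fun k => ?_
  obtain ⟨a1, a2⟩ := h1 D hD k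
  obtain ⟨s, b1, b2, b3, b4, b5⟩ := sel_eq H.ell (tw_sum (E.h0 k) D)
    (Pool.Agent.Y723.PT.tw_inj hD.ne_zero (E.ha k)) a1 a2
  have b6 : E.w D k = s := sr_eq b3
  have b7 : dd k D = 2 + s := b1
  omega

/-- the limit of the moment -/
noncomputable def mo (a : ℕ) : ℝ := ∏ i ∈ range a, (1 + (2 : ℝ) ^ (i + 1))

/-- the moments in one class -/
theorem Ey.mom_cls [Fintype κ] (H : FactsY) (a : κ → ℕ) (x : Cl E.T) (C : ℤ → Prop)
    (hC : ∀ D, C D ↔ Squarefree D ∧ clD E.T D = x) : ∃ c : ℝ, 0 < c ∧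
      Tendsto (fun X : ℕ => (((Icc (-(X : ℤ)) X).filter fun D => C D).card : ℝ) / X) atTop (𝓝 c) ∧
      Tendsto (fun X : ℕ => (∑ D ∈ (Icc (-(X : ℤ)) X).filter (fun D => C D),
        ∏ k, ((2 : ℝ) ^ E.w D k) ^ a k) / X) atTop (𝓝 ((∏ k, mo (a k)) * c)) := by
  obtain ⟨π, hπ⟩ := E.raw H x
  obtain ⟨c, hc, h3, h4⟩ := hπ C hC
  refine ⟨c, hc, h3, ?_⟩
  obtain ⟨B, hB0, hB⟩ := E.tail H a
  exact lim_mom (lw := fun k e => lawc (π k) e) (f := fun k e => ((2 : ℝ) ^ e) ^ a k)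
    (m := fun k => mo (a k)) (fun k => mom_law (π k) (a k)) E.w C h4
    (fun k e => by positivity) (B := B) (hB C fun D h => ((hC D).1 h).1)

/-- the order of the Selmer group -/
noncomputable def Ey.s (D : ℤ) (k : κ) : ℕ := Nat.card (Sel2H (cv (tw D (E.a k))))

theorem Ey.prod_s [Fintype κ] (H : FactsY) (a : κ → ℕ) {D : ℤ} (hD : Squarefree D) :
    ∏ k, (E.s D k : ℝ) ^ a k = (∏ k, (4 : ℝ) ^ a k) * ∏ k, ((2 : ℝ) ^ E.w D k) ^ a k := by
  rw [← prod_mul_distrib]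
  refine prod_congr rfl fun k _ => ?_
  rw [← mul_pow]
  congr 1
  have h4 := ((E.out H).1 D hD k).2.1
  show ((Nat.card (Sel2H (cv (tw D (E.a k)))) : ℕ) : ℝ) = 4 * 2 ^ E.w D k
  rw [h4, pow_add]
  push_cast
  norm_num
  rfl

/-- the moments in the class of an integer -/
theorem Ey.mom_one [Fintype κ] (H : FactsY) (a : κ → ℕ) (D₀ : ℤ) (hD₀ : Squarefree D₀)
    (C : ℤ → Prop) (hC : ∀ D, C D ↔ Squarefree D ∧ E.Cond D₀ D) :
    Tendsto (fun X : ℕ => (∑ D ∈ (Icc (-(X : ℤ)) X).filter (fun D => C D),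
        ∏ k, (E.s D k : ℝ) ^ a k) / (((Icc (-(X : ℤ)) X).filter fun D => C D).card : ℝ)) atTop
      (𝓝 (∏ k, (4 ^ a k * mo (a k)))) := by
  have L := LB.of H.lbl E.hT
  have hC' : ∀ D, C D ↔ Squarefree D ∧ clD E.T D = clD E.T D₀ := by
    intro D
    rw [hC]
    exact and_congr_right fun hD => (cls_iff L H.lsq hD₀ hD).symm
  obtain ⟨c, hc, h3, h4⟩ := E.mom_cls H a (clD E.T D₀) C hC'
  have h5 := (h4.div h3 hc.ne').const_mul (∏ k, (4 : ℝ) ^ a k)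
  have e1 : (∏ k, (4 : ℝ) ^ a k) * ((∏ k, mo (a k)) * c / c) = ∏ k, (4 ^ a k * mo (a k)) := by
    rw [mul_div_assoc, div_self hc.ne', mul_one, ← prod_mul_distrib]
  rw [e1] at h5
  refine h5.congr' ?_
  filter_upwards [eventually_gt_atTop 0] with X hX
  have hX0 : (X : ℝ) ≠ 0 := by exact_mod_cast hX.ne'
  show (∏ k, (4 : ℝ) ^ a k) * ((∑ D ∈ (Icc (-(X : ℤ)) X).filter (fun D => C D),
        ∏ k, ((2 : ℝ) ^ E.w D k) ^ a k) / X /
          ((((Icc (-(X : ℤ)) X).filter fun D => C D).card : ℝ) / X)) = _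
  rw [div_div_div_cancel_right₀ hX0, ← mul_div_assoc, mul_sum]
  congr 1
  refine sum_congr rfl fun D hD => ?_
  rw [E.prod_s H a ((hC D).1 (mem_filter.1 hD).2).1]

/-- the moments over all squarefree integers -/
theorem Ey.mom_all [Fintype κ] (H : FactsY) (a : κ → ℕ) (C : ℤ → Prop)
    (hC : ∀ D, C D ↔ Squarefree D) :
    Tendsto (fun X : ℕ => (∑ D ∈ (Icc (-(X : ℤ)) X).filter (fun D => C D),
        ∏ k, (E.s D k : ℝ) ^ a k) / (((Icc (-(X : ℤ)) X).filter fun D => C D).card : ℝ)) atTop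
      (𝓝 (∏ k, (4 ^ a k * mo (a k)))) := by
  obtain ⟨R, hR⟩ : ∃ R : Cl E.T → ℤ → Prop, ∀ x D, R x D ↔ Squarefree D ∧ clD E.T D = x :=
    ⟨_, fun _ _ => Iff.rfl⟩
  choose c hc h3 h4 using fun x => E.mom_cls H a x (R x) (hR x)
  have hpart : ∀ (X : ℕ) (F : ℤ → ℝ), ∑ x : Cl E.T, ∑ D ∈ (Icc (-(X : ℤ)) X).filter (fun D => R x D), F D =
      ∑ D ∈ (Icc (-(X : ℤ)) X).filter (fun D => C D), F D := by
    intro X F
    rw [← sum_fiberwise_of_maps_to (s := (Icc (-(X : ℤ)) X).filter (fun D => C D)) (t := univ)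
      (g := clD E.T) (fun _ _ => mem_univ _)]
    refine sum_congr rfl fun x _ => ?_
    refine sum_congr ?_ fun _ _ => rfl
    rw [filter_filter]
    refine filter_congr fun D _ => ?_
    rw [hR, hC]
  have h5 : Tendsto (fun X : ℕ => (∑ D ∈ (Icc (-(X : ℤ)) X).filter (fun D => C D),
        ∏ k, ((2 : ℝ) ^ E.w D k) ^ a k) / X) atTop (𝓝 ((∏ k, mo (a k)) * ∑ x, c x)) := by
    rw [mul_sum]
    refine (tendsto_finsetSum _ fun x _ => h4 x).congr fun X => ?_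
    rw [← sum_div, hpart]
  have h6 : Tendsto (fun X : ℕ => (((Icc (-(X : ℤ)) X).filter fun D => C D).card : ℝ) / X) atTop
      (𝓝 (∑ x, c x)) := by
    refine (tendsto_finsetSum _ fun x _ => h3 x).congr fun X => ?_
    rw [← sum_div]
    congr 1
    have h7 := hpart X fun _ => (1 : ℝ)
    simp only [sum_const, nsmul_eq_mul, mul_one] at h7
    exact h7
  have hcp : 0 < ∑ x, c x := sum_pos (fun x _ => hc x) ⟨0, mem_univ _⟩
  have h7 := (h5.div h6 hcp.ne').const_mul (∏ k, (4 : ℝ) ^ a k)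
  have e1 : (∏ k, (4 : ℝ) ^ a k) * ((∏ k, mo (a k)) * (∑ x, c x) / (∑ x, c x)) =
      ∏ k, (4 ^ a k * mo (a k)) := by
    rw [mul_div_assoc, div_self hcp.ne', mul_one, ← prod_mul_distrib]
  rw [e1] at h7
  refine h7.congr' ?_
  filter_upwards [eventually_gt_atTop 0] with X hX
  have hX0 : (X : ℝ) ≠ 0 := by exact_mod_cast hX.ne'
  show (∏ k, (4 : ℝ) ^ a k) * ((∑ D ∈ (Icc (-(X : ℤ)) X).filter (fun D => C D),
        ∏ k, ((2 : ℝ) ^ E.w D k) ^ a k) / X /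
          ((((Icc (-(X : ℤ)) X).filter fun D => C D).card : ℝ) / X)) = _
  rw [div_div_div_cancel_right₀ hX0, ← mul_div_assoc, mul_sum]
  congr 1
  refine sum_congr rfl fun D hD => ?_
  rw [E.prod_s H a ((hC D).1 (mem_filter.1 hD).2)]

end Q44.JQ.X
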