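import Pool.Agent.Q44.JQ.M.Fin
import Pool.Agent.Q44.JQ.StmI

/-!
# The exact law for several elliptic curves
-/

set_option autoImplicit false
set_option linter.unusedSectionVars false

open scoped Classical Topology

namespace Q44.JQ.X

open Finset Module Filter
open Q44.JQ Q44.JQ.W Q44.JQ.M
open Pool.Agent.Y703.CQ (nr)
open Pool.Agent.TH344.JG (LocJ SelJ PR df)
open Pool.Agent.Y723.PT (tw)

variable {T : Finset ℕ}

/-- several elliptic curves, no two of which have isomorphic modules -/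
structure Fx (T : Finset ℕ) (κ : Type) where
  c : κ → Cr T
  g1 : ∀ k, (c k).g = 1
  irr : ∀ k, (c k).Irr
  ne : ∀ k l, k ≠ l → ¬ ∃ σ : Fin (2 * (c k).g + 1) ≃ Fin (2 * (c l).g + 1), ∀ i j, i ≠ j →
    (ct ((c k).a i - (c k).a j) : Option T → ZMod 2) = ct ((c l).a (σ i) - (c l).a (σ j))

variable {κ : Type} (F : Fx T κ) (L : LB T)

/-- the curve with roots `Uo γ * a i` -/
noncomputable def Fx.cu (F : Fx T κ) (γ : Option T → ZMod 2) (k : κ) : Cr T :=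
  (F.c k).mul (Uo γ) (L.U0 γ) (L.uo γ).2.1

include L

theorem Fx.adj [Fintype κ] (hADJ0 : S_ADJ0) (hISO1 : S_ISO1) (hOMV : S_OMV)
    (γ : Option T → ZMod 2)
    (𝓛 : ∀ k, Submodule (ZMod 2) ((Option T → (F.cu L γ k).V) × (Option T → (F.cu L γ k).V))) :
    Adj2 (V := fun k => (F.cu L γ k).V) fun k => (F.cu L γ k).dj (𝓛 k) := by
  haveI : ∀ k, Nontrivial (F.cu L γ k).V := fun k => (hOMV T (F.cu L γ k) ⊥).2.2.2.2
  refine hADJ0 (Option T) κ (fun k => (F.cu L γ k).V) (fun k φ => ((F.cu L γ k).dj (𝓛 k)).T φ) ?_ ?_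
  · intro k
    exact irr_mul L (F.irr k) _ _ _
  · intro k l hkl hf
    obtain ⟨σ, hσ⟩ := hISO1 T (F.cu L γ k) (F.cu L γ l) (F.g1 k) (F.g1 l) hf
    refine F.ne k l hkl ⟨σ, fun i j hij => ?_⟩
    have h1 := hσ i j hij
    have hi : (F.c k).a i - (F.c k).a j ≠ 0 := sub_ne_zero.2 fun h => hij ((F.c k).inj h)
    have hj : (F.c l).a (σ i) - (F.c l).a (σ j) ≠ 0 :=
      sub_ne_zero.2 fun h => hij (σ.injective ((F.c l).inj h))
    have e1 : (F.cu L γ k).a i - (F.cu L γ k).a j = Uo γ * ((F.c k).a i - (F.c k).a j) := by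
      show Uo γ * (F.c k).a i - Uo γ * (F.c k).a j = _
      ring
    have e2 : (F.cu L γ l).a (σ i) - (F.cu L γ l).a (σ j) =
        Uo γ * ((F.c l).a (σ i) - (F.c l).a (σ j)) := by
      show Uo γ * (F.c l).a (σ i) - Uo γ * (F.c l).a (σ j) = _
      ring
    rw [e1, e2, L.ct_mul _ _ (L.U0 γ) hi, L.ct_mul _ _ (L.U0 γ) hj] at h1
    exact add_left_cancel h1

theorem Fx.pkg [Fintype κ] (hARXE : S_ARXE) (hADJ0 : S_ADJ0) (hISO1 : S_ISO1) (hOMV : S_OMV)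
    (hLAJ : S_LAJ2) (hPAR0 : S_PAR0) (γ : Option T → ZMod 2) :
    ∃ (dm : κ → (Option T → ZMod 2) → ℕ → ℕ) (π : κ → (Option T → ZMod 2) → ZMod 2),
      (∀ k n, Squarefree n → Cop T n → (SelJ (tw (Uo γ * n) (F.c k).a)).Finite ∧
        (SelJ (tw (Uo γ * n) (F.c k).a)).ncard = 2 ^ dm k (lbl T n) n) ∧
      (∀ k n, Squarefree n → Cop T n → ((dm k (lbl T n) n : ℕ) : ZMod 2) = π k (lbl T n)) ∧
      (∀ ρ (r : κ → ℕ) (Q : ℕ → Prop), (∀ n, Q n ↔ ∀ k, dm k ρ n = 2 + r k) →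
        Tendsto (fun X : ℕ => (((Icc 1 X).filter fun n => Dn T ρ n ∧ Q n).card : ℝ) /
          (((Icc 1 X).filter fun n => Dn T ρ n).card : ℝ)) atTop (𝓝 (∏ k, lawc (π k ρ) (r k)))) := by
  have h1 := fun k => hARXE T L.pr L.two (F.cu L γ k) (F.g1 k)
  choose 𝓛 hO _hm hS using h1
  have hfr : ∀ k, finrank (ZMod 2) (F.cu L γ k).V = 2 := fun k => by
    rw [(hOMV T (F.cu L γ k) ⊥).2.2.2.1]
    show 2 * (F.c k).g = 2
    rw [F.g1]
  haveI : ∀ k, Nontrivial (F.cu L γ k).V := fun k => (hOMV T (F.cu L γ k) ⊥).2.2.2.2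
  refine ⟨fun k ρ n => dmS ((F.cu L γ k).dj (𝓛 k ρ)) n.primeFactors,
    fun k ρ => ((finrank (ZMod 2) ((F.cu L γ k).dj (𝓛 k ρ)).pm : ℕ) : ZMod 2), ?_, ?_, ?_⟩
  · intro k n hn hc
    have hp : ∀ p ∈ n.primeFactors, p.Prime ∧ p ∉ T := fun p hp =>
      ⟨Nat.prime_of_mem_primeFactors hp, fun h => hc p h (Nat.dvd_of_mem_primeFactors hp)⟩
    have hl := L.lbl_prod n.primeFactors fun p h => (L.toTS.prime_cop (hp p h).1).2 (hp p h).2
    have h2 := hS k (lbl T n) n.primeFactors hp (by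
      rw [← hl.2, Nat.prod_primeFactors_of_squarefree hn])
    rw [Nat.prod_primeFactors_of_squarefree hn] at h2
    have e : tw (Uo γ * n) (F.c k).a = tw (n : ℤ) (F.cu L γ k).a := by
      funext i
      show Uo γ * n * (F.c k).a i = n * (Uo γ * (F.c k).a i)
      ring
    rw [e]
    refine ⟨h2.1, h2.2.trans ?_⟩
    unfold dmS
    rw [Module.natCard_eq_pow_finrank (K := ZMod 2), Nat.card_zmod]
  · intro k n hn hc
    have hp : ∀ p ∈ n.primeFactors, p.Prime ∧ p ∉ T := fun p hp =>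
      ⟨Nat.prime_of_mem_primeFactors hp, fun h => hc p h (Nat.dvd_of_mem_primeFactors hp)⟩
    refine hPAR0 (Option T) (F.cu L γ k).V n.primeFactors ((F.cu L γ k).dj (𝓛 k (lbl T n)))
      (lbl T n) (hO k _) (fun a b : n.primeFactors => nr a b) (fun a => lbl T a) ?_
    intro p q hpq
    obtain ⟨h1, h2⟩ := hp p p.2
    obtain ⟨h3, h4⟩ := hp q q.2
    show nr q p = nr p q + lbl T p none * lbl T q none
    rw [lbl_none L h1 h2, lbl_none L h3 h4, mul_comm]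
    exact Q44.BM.nr_rec h3 (L.toTS.ne2 h4) h1 (L.toTS.ne2 h2) fun h => hpq (Subtype.ext h.symm)
  · intro ρ r Q hQ
    refine Q44.JQ.W.law_nat L hLAJ (κ := κ) (V := fun k => (F.cu L γ k).V)
      (D := fun k => (F.cu L γ k).dj (𝓛 k ρ)) (fun k => rfl) (fun k => hO k ρ)
      (F.adj L hADJ0 hISO1 hOMV γ fun k => 𝓛 k ρ) r Q ?_
    intro n
    rw [hQ]
    refine forall_congr' fun k => ?_
    rw [hfr k]

/-- the facts -/
structure FactsX : Prop where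
  arxe : S_ARXE
  adj0 : S_ADJ0
  iso1 : S_ISO1
  omv : S_OMV
  laj : S_LAJ2
  sqm : S_SQM
  lbl : S_LBL
  par0 : S_PAR0

/-- the joint law in one class -/
theorem Fx.joint [Fintype κ] (H : FactsX) :
    ∃ dd : κ → ℤ → ℕ,
      (∀ D : ℤ, Squarefree D → ∀ k, (SelJ (tw D (F.c k).a)).Finite ∧
        (SelJ (tw D (F.c k).a)).ncard = 2 ^ dd k D) ∧
      ∀ x : Cl T, ∃ π : κ → ZMod 2,
        (∀ D : ℤ, Squarefree D → clD T D = x → ∀ k, ((dd k D : ℕ) : ZMod 2) = π k) ∧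
        ∀ C : ℤ → Prop, (∀ D, C D ↔ Squarefree D ∧ clD T D = x) →
        ∃ c : ℝ, 0 < c ∧
        Tendsto (fun X : ℕ => (((Icc (-(X : ℤ)) X).filter fun D => C D).card : ℝ) / X) atTop (𝓝 c) ∧
        ∀ (r : κ → ℕ) (Q : ℤ → Prop), (∀ D, Q D ↔ ∀ k, dd k D = 2 + r k) →
          Tendsto (fun X : ℕ => (((Icc (-(X : ℤ)) X).filter fun D => C D ∧ Q D).card : ℝ) / X) atTop
            (𝓝 ((∏ k, lawc (π k) (r k)) * c)) := by
  obtain ⟨δ, hδ, hdens⟩ := L.dens H.sqm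
  have h1 := fun γ : Option T → ZMod 2 => F.pkg L H.arxe H.adj0 H.iso1 H.omv H.laj H.par0 γ
  choose dm π hdm hpar hlaw using h1
  let P : Pk T κ (fun _ => True) :=
    { dm := fun γ k ρ n => dm γ k ρ n
      bs := fun _ => 2
      ℓ := fun γ ρ r => ∏ k, lawc (π γ k ρ) (r k)
      lim := fun γ _ ρ r Q hQ => hlaw γ ρ r Q hQ }
  refine ⟨P.dd, ?_, fun x => ⟨fun k => π x.1 k x.2, ?_, fun C hC => ?_⟩⟩
  · intro D hD k
    obtain ⟨g1, g2, g3⟩ := L.dec hD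
    have h2 := hdm (ct D) k (nD T D) g2 g3
    rw [← g1] at h2
    exact h2
  · rintro D hD rfl k
    obtain ⟨g1, g2, g3⟩ := L.dec hD
    exact hpar (ct D) k (nD T D) g2 g3
  · have hC' : ∀ D, C D ↔ Squarefree D ∧ clD T D ∈ ({x} : Finset (Cl T)) := fun D => by
      rw [hC, mem_singleton]
    have hU : 0 < (Uo x.1).natAbs := Int.natAbs_pos.2 (L.U0 _)
    refine ⟨δ * ∑ x ∈ ({x} : Finset (Cl T)), (1 : ℝ) / (Uo x.1).natAbs, ?_,
      dens_cls L hdens {x} C hC', fun r Q hQ => ?_⟩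
    · rw [sum_singleton]
      positivity
    · have h2 := P.law L hdens {x} (fun _ _ => trivial) C hC' r Q hQ
      rw [sum_singleton] at h2 ⊢
      rw [mul_comm (∏ k, lawc (π x.1 k x.2) (r k))]
      exact h2

end Q44.JQ.X
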